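import Pool.Agent.R280.XLogXEmb
import Pool.Agent.R280.QuasiLin

/-!
# The preimage `φ⁻¹(M)` need not be a Banach space (MP_8983f3_an, Q1: no)

Let `X = Y = ℓ_1`, `M = {(2^{-i} m_i) : m ∈ ℓ_1}` and `φ(x) = (2^{-i} x_i log |x_i|)`. Then
`φ⁻¹(M) = {x : ∑ |x_i log |x_i|| < ∞}`. Its Polish vector space topology is the one induced by the map
`x ↦ (x, (x_i log |x_i|)_i)` into `ℓ_1 × ℓ_1`. If it was induced by a norm `p`, then by Pettis' theorem
`p` would be bounded at the unit vectors, and the modular `∑ |x_i log |x_i||` would be bounded on a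
ball of `p`; this fails for the vectors `(s/N) (e_0 + ⋯ + e_{N-1})`.
-/

set_option autoImplicit false

open Set Topology Filter MeasureTheory Pool.Agent.R280.XLogX Pool.Agent.R280.QuasiLin

namespace Pool.Agent.Results.MP_8983f3_an.NotNormable

/-- `τ` is a Polish vector space topology on the linear subspace `V` of `X`, whose Borel sets are
the subsets of `V` which are Borel in `X`. -/
def IsInducedPolish {X : Type} [NormedAddCommGroup X] [NormedSpace ℝ X] (V : Submodule ℝ X)
    (τ : TopologicalSpace V) : Prop :=
  IsTopologicalAddGroup V ∧ ContinuousSMul ℝ V ∧ PolishSpace V ∧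
    ∀ B : Set V, MeasurableSet[borel V] B ↔ MeasurableSet[borel X] (Subtype.val '' B)

/-- The topology `τ` of the vector space `V` is induced by some norm `p`. -/
def IsNormable {X : Type} [NormedAddCommGroup X] [NormedSpace ℝ X] (V : Submodule ℝ X)
    (τ : TopologicalSpace V) : Prop :=
  ∃ p : Seminorm ℝ V, (∀ x, p x = 0 → x = 0) ∧
    ∀ U : Set V, U ∈ 𝓝 (0 : V) ↔ ∃ ε : ℝ, 0 < ε ∧ {x | p x < ε} ⊆ U

/-- dominated convergence in `ℓ_1` -/
lemma tendsto_dom {α : Type*} {l : Filter α} (f g : α → L1) (f0 g0 : L1)
    (hf : ∀ i, Tendsto (fun a => f a i) l (𝓝 (f0 i))) (hg : Tendsto g l (𝓝 g0))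
    (hfg : ∀ a i, |f a i| ≤ g a i) (hf0 : ∀ i, |f0 i| ≤ g0 i) : Tendsto f l (𝓝 f0) := by
  rw [tendsto_iff_norm_sub_tendsto_zero]
  have habs : ∀ (u : L1), (∀ i, 0 ≤ u i) → HasSum (fun i => u i) ‖u‖ := by
    intro u hu
    rw [norm_eq]
    have h1 := summable u
    simp only [abs_of_nonneg (hu _)] at h1 ⊢
    exact h1.hasSum
  have hg0 : ∀ i, 0 ≤ g0 i := fun i => (abs_nonneg _).trans (hf0 i)
  have hga : ∀ a i, 0 ≤ g a i := fun a i => (abs_nonneg _).trans (hfg a i)
  rw [Metric.tendsto_nhds]
  intro ε hε
  have h1 : ∀ᶠ F : Finset ℕ in atTop, ‖g0‖ - ε / 2 < ∑ i ∈ F, g0 i :=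
    (habs g0 hg0).eventually_const_lt (by linarith)
  obtain ⟨F, hF⟩ := h1.exists
  have hlim : Tendsto (fun a => ∑ i ∈ F, |f a i - f0 i| + (‖g a‖ - ∑ i ∈ F, g a i) +
      (‖g0‖ - ∑ i ∈ F, g0 i)) l (𝓝 (∑ i ∈ F, |f0 i - f0 i| + (‖g0‖ - ∑ i ∈ F, g0 i) +
      (‖g0‖ - ∑ i ∈ F, g0 i))) := by
    refine Tendsto.add (Tendsto.add ?_ (Tendsto.sub hg.norm ?_)) tendsto_const_nhds
    · exact tendsto_finsetSum _ fun i _ => ((hf i).sub_const _).abs
    · exact tendsto_finsetSum _ fun i _ => ((coord i).continuous.tendsto g0).comp hg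
  simp only [sub_self, abs_zero, Finset.sum_const_zero, zero_add] at hlim
  filter_upwards [hlim.eventually_lt_const (show _ < ε by linarith)] with a ha
  rw [dist_zero_right, norm_norm]
  refine lt_of_le_of_lt ?_ ha
  rw [norm_eq]
  have h2 : ∀ i, |(f a - f0) i| = |f a i - f0 i| := fun i => rfl
  simp only [h2]
  have hs1 : HasSum (fun i => g a i + g0 i) (‖g a‖ + ‖g0‖) := (habs _ (hga a)).add (habs _ hg0)
  have hle : ∀ i, |f a i - f0 i| ≤ g a i + g0 i := fun i =>
    (abs_sub _ _).trans (add_le_add (hfg a i) (hf0 i))
  have hs2 : Summable fun i => |f a i - f0 i| :=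
    Summable.of_nonneg_of_le (fun i => abs_nonneg _) hle hs1.summable
  have e1 := hs2.sum_add_tsum_compl (s := F)
  have e2 := hs1.summable.sum_add_tsum_compl (s := F)
  have e3 : ∑' x : ↑(↑F : Set ℕ)ᶜ, |f a x - f0 x| ≤ ∑' x : ↑(↑F : Set ℕ)ᶜ, (g a x + g0 x) :=
    Summable.tsum_le_tsum (fun x => hle x) (hs2.subtype _) (hs1.summable.subtype _)
  rw [hs1.tsum_eq, Finset.sum_add_distrib] at e2
  linarith

/-- the domain -/
noncomputable def V : Submodule ℝ L1 where
  carrier := {x | Summable fun i => |h (x i)|}
  zero_mem' := by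
    show Summable fun i => |h ((0 : L1) i)|
    have : (fun i => |h ((0 : L1) i)|) = fun _ : ℕ => (0 : ℝ) := by
      funext i
      rw [lp.coeFn_zero, Pi.zero_apply, h_zero, abs_zero]
    rw [this]
    exact summable_zero
  add_mem' := by
    intro x y hx hy
    have hb : ∀ i, |h ((x + y) i)| ≤ (|h (x i)| + |h (y i)|) + 3 * (|x i| + |y i|) := by
      intro i
      have h1 := h_add (x i) (y i)
      have h2 : (x + y) i = x i + y i := rfl
      rw [h2]
      have h3 := abs_sub_abs_le_abs_sub (h (x i + y i)) (h (x i) + h (y i))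
      have h4 : h (x i + y i) - (h (x i) + h (y i)) = h (x i + y i) - h (x i) - h (y i) := by ring
      rw [h4] at h3
      have h5 := abs_add_le (h (x i)) (h (y i))
      linarith
    exact Summable.of_nonneg_of_le (fun i => abs_nonneg _) hb
      (((show Summable fun i => |h (x i)| from hx).add hy).add
        (((summable x).add (summable y)).mul_left 3))
  smul_mem' := by
    intro c x hx
    have hb : ∀ i, |h ((c • x) i)| ≤ |c| * |h (x i)| + |h c| * |x i| := by
      intro i
      have h2 : (c • x) i = c * x i := rfl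
      rw [h2, h_smul]
      refine (abs_add_le _ _).trans ?_
      rw [abs_mul, abs_mul]
    exact Summable.of_nonneg_of_le (fun i => abs_nonneg _) hb
      (((show Summable fun i => |h (x i)| from hx).mul_left |c|).add ((summable x).mul_left |h c|))

lemma mem_V (x : L1) : x ∈ V ↔ Summable fun i => |h (x i)| := Iff.rfl

lemma mem_V_iff (x : L1) : x ∈ V ↔ ∃ m, phi x = jmap m := by
  rw [mem_V]
  constructor
  · intro hx
    exact exists_jmap (y := phi x) (f := fun i => h (x i)) hx fun i => phi_apply x i
  · rintro ⟨m, hm⟩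
    have h1 : ∀ i, h (x i) = m i := by
      intro i
      have h2 : (1 / 2 : ℝ) ^ i * h (x i) = (1 / 2 : ℝ) ^ i * m i := by
        rw [← phi_apply, hm, jmap_apply]
      exact mul_left_cancel₀ (by positivity) h2
    simp only [h1]
    exact summable m

/-- the map `x ↦ (h(x_i))` -/
noncomputable def H (x : V) : L1 := mk (fun i => h ((x : L1) i)) x.2

lemma H_apply (x : V) (i : ℕ) : H x i = h ((x : L1) i) := rfl

/-- the graph map -/
noncomputable def Gr (x : V) : L1 × L1 := ((x : L1), H x)

/-- the topology of the domain -/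
@[instance_reducible]
noncomputable def tau : TopologicalSpace V := TopologicalSpace.induced Gr inferInstance

lemma Gr_injective : Function.Injective Gr := fun _ _ hxy =>
  Subtype.ext (congrArg Prod.fst hxy)

lemma isClosed_range : IsClosed (Set.range Gr) := by
  have h1 : Set.range Gr = ⋂ i : ℕ, {z : L1 × L1 | z.2 i = h (z.1 i)} := by
    ext z
    simp only [mem_range, mem_iInter, mem_ofPred]
    constructor
    · rintro ⟨x, rfl⟩ i
      rfl
    · intro hz
      have h2 : z.1 ∈ V := by
        rw [mem_V]
        simp only [← hz]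
        exact summable z.2
      refine ⟨⟨z.1, h2⟩, Prod.ext rfl (lp.ext (funext fun i => ?_))⟩
      exact (hz i).symm
  rw [h1]
  refine isClosed_iInter fun i => isClosed_eq ?_ ?_
  · exact (coord i).continuous.comp continuous_snd
  · exact continuous_h.comp ((coord i).continuous.comp continuous_fst)

/-- the domain with its Polish topology -/
def W : Type := V

noncomputable instance : AddCommGroup W := inferInstanceAs (AddCommGroup V)

noncomputable instance : Module ℝ W := inferInstanceAs (Module ℝ V)

noncomputable instance : TopologicalSpace W := tau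

/-- the inclusion -/
noncomputable def inc : W →ₗ[ℝ] L1 := V.subtype

lemma inc_injective : Function.Injective inc := Subtype.val_injective

/-- the map `H` on `W` -/
noncomputable def HW : W → L1 := H

lemma HW_apply (x : W) (i : ℕ) : HW x i = h (inc x i) := rfl

lemma continuous_iff' {α : Type*} [TopologicalSpace α] (f : α → W) :
    Continuous f ↔ Continuous (fun a => inc (f a)) ∧ Continuous (fun a => HW (f a)) := by
  rw [← continuous_prodMk]
  exact continuous_induced_rng

lemma continuous_inc : Continuous inc := ((continuous_iff' (id : W → W)).1 continuous_id).1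

lemma continuous_HW : Continuous HW := ((continuous_iff' (id : W → W)).1 continuous_id).2

/-- componentwise absolute value -/
noncomputable def absL (x : L1) : L1 := mk (fun i => |x i|) (by simpa using summable x)

lemma absL_apply (x : L1) (i : ℕ) : absL x i = |x i| := rfl

lemma continuous_absL : Continuous absL := by
  refine LipschitzWith.continuous (K := 1) (LipschitzWith.of_dist_le_mul fun x y => ?_)
  rw [NNReal.coe_one, one_mul, dist_eq_norm, dist_eq_norm, norm_eq, norm_eq]
  have hle : ∀ i, |(absL x - absL y) i| ≤ |(x - y) i| := fun i => abs_abs_sub_abs_le _ _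
  exact Summable.tsum_le_tsum hle (summable _) (summable _)

instance : ContinuousAdd W := by
  refine ⟨?_⟩
  rw [continuous_iff']
  constructor
  · simp only [map_add]
    exact (continuous_inc.comp continuous_fst).add (continuous_inc.comp continuous_snd)
  · rw [continuous_iff_continuousAt]
    intro z
    refine tendsto_dom (fun z : W × W => HW (z.1 + z.2))
      (fun z : W × W => (absL (HW z.1) + absL (HW z.2)) +
        (3 : ℝ) • (absL (inc z.1) + absL (inc z.2))) (HW (z.1 + z.2))
      ((absL (HW z.1) + absL (HW z.2)) + (3 : ℝ) • (absL (inc z.1) + absL (inc z.2)))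
      (fun i => ?_) ?_ ?_ ?_
    · simp only [HW_apply, map_add]
      have h1 : Continuous fun z : W × W => (inc z.1 + inc z.2 : L1) i :=
        (coord i).continuous.comp
          ((continuous_inc.comp continuous_fst).add (continuous_inc.comp continuous_snd))
      exact (continuous_h.comp h1).tendsto z
    · refine Continuous.tendsto ?_ z
      have e1 := continuous_absL.comp (continuous_HW.comp (continuous_fst (X := W) (Y := W)))
      have e2 := continuous_absL.comp (continuous_HW.comp (continuous_snd (X := W) (Y := W)))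
      have e3 := continuous_absL.comp (continuous_inc.comp (continuous_fst (X := W) (Y := W)))
      have e4 := continuous_absL.comp (continuous_inc.comp (continuous_snd (X := W) (Y := W)))
      exact (e1.add e2).add ((e3.add e4).const_smul (3 : ℝ))
    · intro z i
      have h1 := h_add (inc z.1 i) (inc z.2 i)
      have h2 : HW (z.1 + z.2) i = h (inc z.1 i + inc z.2 i) := rfl
      have h6 : ((absL (HW z.1) + absL (HW z.2)) +
        (3 : ℝ) • (absL (inc z.1) + absL (inc z.2))) i = (|h (inc z.1 i)| + |h (inc z.2 i)|) +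
          3 * (|inc z.1 i| + |inc z.2 i|) := rfl
      rw [h2, h6]
      have h3 := abs_sub_abs_le_abs_sub (h (inc z.1 i + inc z.2 i))
        (h (inc z.1 i) + h (inc z.2 i))
      have h4 : h (inc z.1 i + inc z.2 i) - (h (inc z.1 i) + h (inc z.2 i)) =
        h (inc z.1 i + inc z.2 i) - h (inc z.1 i) - h (inc z.2 i) := by ring
      rw [h4] at h3
      have h5 := abs_add_le (h (inc z.1 i)) (h (inc z.2 i))
      linarith
    · intro i
      have h1 := h_add (inc z.1 i) (inc z.2 i)
      have h2 : HW (z.1 + z.2) i = h (inc z.1 i + inc z.2 i) := rfl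
      have h6 : ((absL (HW z.1) + absL (HW z.2)) +
        (3 : ℝ) • (absL (inc z.1) + absL (inc z.2))) i = (|h (inc z.1 i)| + |h (inc z.2 i)|) +
          3 * (|inc z.1 i| + |inc z.2 i|) := rfl
      rw [h2, h6]
      have h3 := abs_sub_abs_le_abs_sub (h (inc z.1 i + inc z.2 i))
        (h (inc z.1 i) + h (inc z.2 i))
      have h4 : h (inc z.1 i + inc z.2 i) - (h (inc z.1 i) + h (inc z.2 i)) =
        h (inc z.1 i + inc z.2 i) - h (inc z.1 i) - h (inc z.2 i) := by ring
      rw [h4] at h3
      have h5 := abs_add_le (h (inc z.1 i)) (h (inc z.2 i))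
      linarith

lemma HW_smul (c : ℝ) (x : W) : HW (c • x) = c • HW x + h c • inc x := by
  refine lp.ext (funext fun i => ?_)
  show h (c * inc x i) = c * h (inc x i) + h c * inc x i
  exact h_smul c _

instance : ContinuousSMul ℝ W := by
  refine ⟨?_⟩
  rw [continuous_iff']
  constructor
  · simp only [map_smul]
    exact continuous_fst.smul (continuous_inc.comp continuous_snd)
  · simp only [HW_smul]
    exact (continuous_fst.smul (continuous_HW.comp continuous_snd)).add
      ((continuous_h.comp continuous_fst).smul (continuous_inc.comp continuous_snd))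

instance : IsTopologicalAddGroup W where
  continuous_neg := by
    have h1 : Continuous fun x : W => (-1 : ℝ) • x := continuous_const_smul (-1 : ℝ)
    have h2 : (fun x : W => (-1 : ℝ) • x) = fun x => -x := by
      funext x
      rw [neg_smul, one_smul]
    rwa [h2] at h1

instance : PolishSpace W := by
  have : SecondCountableTopology L1 := UniformSpace.secondCountable_of_separable L1
  have h1 : IsClosedEmbedding (fun x : W => Gr x) :=
    ⟨⟨⟨rfl⟩, Gr_injective⟩, isClosed_range⟩
  exact h1.polishSpace

lemma borel_iff (B : Set W) :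
    MeasurableSet[borel W] B ↔ MeasurableSet[borel L1] (inc '' B) := by
  borelize W L1
  constructor
  · intro hB
    exact hB.image_of_continuousOn_injOn continuous_inc.continuousOn inc_injective.injOn
  · intro hB
    have h1 := continuous_inc.measurable hB
    rwa [preimage_image_eq _ inc_injective] at h1

lemma isQuasiLinear : IsQuasiLinear jmap phi where
  completeX := inferInstance
  separableX := inferInstance
  completeY := inferInstance
  separableY := inferInstance
  completeM := inferInstance
  injective := jmap_injective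
  norm_le := norm_jmap_le
  borel := measurable_phi
  linear_mod := phi_quasi

/-- There are data `X`, `Y`, `M`, `φ` as in the problem for which the Polish vector space topology
of `V = φ⁻¹(M)` is not normable. -/
theorem result : ∃ (X Y M : Type) (_ : NormedAddCommGroup X) (_ : NormedSpace ℝ X)
    (_ : NormedAddCommGroup Y) (_ : NormedSpace ℝ Y) (_ : NormedAddCommGroup M)
    (_ : NormedSpace ℝ M) (j : M →L[ℝ] Y) (φ : X → Y) (V : Submodule ℝ X),
      IsQuasiLinear j φ ∧ (∀ x, x ∈ V ↔ ∃ m, φ x = j m) ∧
      (∃ τ : TopologicalSpace V, IsInducedPolish V τ) ∧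
      ∀ τ : TopologicalSpace V, IsInducedPolish V τ → ¬ IsNormable V τ := by
  refine ⟨L1, L1, L1, inferInstance, inferInstance, inferInstance, inferInstance,
    inferInstance, inferInstance, jmap, phi, V, isQuasiLinear, mem_V_iff, ?_, ?_⟩
  · refine ⟨tau, ?_⟩
    exact ⟨inferInstanceAs (IsTopologicalAddGroup W), inferInstanceAs (ContinuousSMul ℝ W),
      inferInstanceAs (PolishSpace W), borel_iff⟩
  · intro τ hτ hn
    obtain ⟨h1, h2, h3, h4⟩ := hτ
    refine not_normable V V.subtype Subtype.val_injective (fun x => ?_) h4 hn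
    rw [← mem_V]
    constructor
    · rintro ⟨w, rfl⟩
      exact w.2
    · intro hx
      exact ⟨⟨x, hx⟩, rfl⟩

end Pool.Agent.Results.MP_8983f3_an.NotNormable
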